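import Pool.Agent.Helper28.NO.Goals

/-!
# Packet E1: the projection of `B_p^(n+1)` along a coordinate axis is `B_p^n`
-/

namespace Pool.Agent.Helper96.NO

open MeasureTheory Set Module
open Pool.Agent.Helper28.NO
open Pool.Agent.Helper7.Proj (Bp projVol)

/-- insertion of a zero coordinate -/
noncomputable def ins {n : ℕ} (i : Fin (n + 1)) :
    EuclideanSpace ℝ (Fin n) →ₗ[ℝ] EuclideanSpace ℝ (Fin (n + 1)) where
  toFun x := WithLp.toLp 2 (i.insertNth (α := fun _ => ℝ) 0 (fun j => x j))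
  map_add' x y := by
    ext j
    refine Fin.succAboveCases i ?_ (fun k => ?_) j <;> simp
  map_smul' r x := by
    ext j
    refine Fin.succAboveCases i ?_ (fun k => ?_) j <;> simp

@[simp] lemma ins_same {n : ℕ} (i : Fin (n + 1)) (x : EuclideanSpace ℝ (Fin n)) :
    ins i x i = 0 := by simp [ins]

@[simp] lemma ins_succAbove {n : ℕ} (i : Fin (n + 1)) (x : EuclideanSpace ℝ (Fin n)) (j : Fin n) :
    ins i x (i.succAbove j) = x j := by simp [ins]

lemma norm_ins {n : ℕ} (i : Fin (n + 1)) (x : EuclideanSpace ℝ (Fin n)) : ‖ins i x‖ = ‖x‖ := by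
  rw [EuclideanSpace.norm_eq, EuclideanSpace.norm_eq, Fin.sum_univ_succAbove _ i]
  simp

lemma ins_mem {n : ℕ} (i : Fin (n + 1)) (x : EuclideanSpace ℝ (Fin n)) :
    ins i x ∈ (ℝ ∙ (EuclideanSpace.single i (1 : ℝ)))ᗮ := by
  rw [Submodule.mem_orthogonal_singleton_iff_inner_right, EuclideanSpace.inner_single_left,
    ins_same, mul_zero]

/-- the isometry onto the coordinate hyperplane -/
noncomputable def isoL {n : ℕ} (i : Fin (n + 1)) :
    EuclideanSpace ℝ (Fin n) →ₗᵢ[ℝ] (ℝ ∙ (EuclideanSpace.single i (1 : ℝ)))ᗮ where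
  toLinearMap := (ins i).codRestrict _ (ins_mem i)
  norm_map' x := by
    rw [← norm_ins i x]; rfl

noncomputable def isoE {n : ℕ} (i : Fin (n + 1)) :
    EuclideanSpace ℝ (Fin n) ≃ₗᵢ[ℝ] (ℝ ∙ (EuclideanSpace.single i (1 : ℝ)))ᗮ :=
  (isoL i).toLinearIsometryEquiv (by
    have h0 : (EuclideanSpace.single i (1 : ℝ) : EuclideanSpace ℝ (Fin (n + 1))) ≠ 0 := by
      intro h
      have := congrArg (fun v : EuclideanSpace ℝ (Fin (n + 1)) => ‖v‖) h
      simp at this
    have : Fact (finrank ℝ (EuclideanSpace ℝ (Fin (n + 1))) = n + 1) := ⟨by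
      rw [finrank_euclideanSpace_fin]⟩
    rw [Submodule.finrank_orthogonal_span_singleton (n := n) h0, finrank_euclideanSpace_fin])

lemma isoE_coe {n : ℕ} (i : Fin (n + 1)) (x : EuclideanSpace ℝ (Fin n)) :
    ((isoE i x : (ℝ ∙ (EuclideanSpace.single i (1 : ℝ)))ᗮ) : EuclideanSpace ℝ (Fin (n + 1))) =
      ins i x := rfl

/-- coordinates of the orthogonal projection -/
lemma proj_apply {n : ℕ} (i : Fin (n + 1)) (x : EuclideanSpace ℝ (Fin (n + 1))) (j : Fin n) :
    ((ℝ ∙ (EuclideanSpace.single i (1 : ℝ)))ᗮ.orthogonalProjectionOnto x :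
      EuclideanSpace ℝ (Fin (n + 1))) (i.succAbove j) = x (i.succAbove j) := by
  obtain ⟨s, hs⟩ : ∃ s : ℝ, x = ((ℝ ∙ (EuclideanSpace.single i (1 : ℝ)))ᗮ.orthogonalProjectionOnto x :
      EuclideanSpace ℝ (Fin (n + 1))) + s • (EuclideanSpace.single i (1 : ℝ)) := by
    obtain ⟨s, hs⟩ := Submodule.mem_span_singleton.1
      ((ℝ ∙ (EuclideanSpace.single i (1 : ℝ))).starProjection_apply_mem x)
    refine ⟨s, ?_⟩
    rw [hs, Submodule.orthogonalProjectionOnto_orthogonal]
    simp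
  conv_rhs => rw [hs]
  simp

theorem preimage_eq {p : ℝ} (hp : 1 < p) {n : ℕ} (i : Fin (n + 1)) :
    isoE i ⁻¹' ((ℝ ∙ (EuclideanSpace.single i (1 : ℝ)))ᗮ.orthogonalProjectionOnto '' Bp p (n + 1)) =
      Bp p n := by
  ext y
  simp only [mem_preimage, mem_image]
  constructor
  · rintro ⟨x, hx, hxy⟩
    have hx' : ∑ j, |x j| ^ p ≤ 1 := hx
    rw [Fin.sum_univ_succAbove _ i] at hx'
    show ∑ j, |y j| ^ p ≤ 1
    have h1 : ∀ j, y j = x (i.succAbove j) := by
      intro j
      rw [← proj_apply i x j, hxy, isoE_coe, ins_succAbove]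
    simp_rw [h1]
    have : 0 ≤ |x i| ^ p := by positivity
    linarith
  · intro hy
    refine ⟨ins i y, ?_, ?_⟩
    · show ∑ j, |ins i y j| ^ p ≤ 1
      rw [Fin.sum_univ_succAbove _ i]
      simp only [ins_same, ins_succAbove, abs_zero]
      rw [Real.zero_rpow (by linarith), zero_add]
      exact hy
    · rw [← isoE_coe]
      exact Submodule.orthogonalProjectionOnto_mem_subspace_eq_self _

theorem goalE1 : GE1 := by
  intro p hp n i
  rw [projVol, Measure.real, Measure.real, ← preimage_eq hp i]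
  congr 1
  exact ((isoE i).measurePreserving.measure_preimage_equiv
    (f := (isoE i).toHomeomorph.toMeasurableEquiv) _).symm

end Pool.Agent.Helper96.NO
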