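import Pool.Agent.Helper28.NO.Goals

/-!
# Packet R345: three one-variable real inequalities
-/

namespace Pool.Agent.Helper96.NO

open Pool.Agent.Helper28.NO

/-- numerical bounds for `1/√2`, in the form used below -/
theorem k_facts : ∃ k : ℝ, k ^ 2 = 1 / 2 ∧ 0.7071 < k ∧ k < 0.70711 ∧ ∀ c : ℝ, c / √2 = c * k := by
  refine ⟨1 / √2, ?_, ?_, ?_, fun c => by ring⟩
  · rw [div_pow, Real.sq_sqrt (by norm_num)]; norm_num
  · have h0 : (0 : ℝ) < √2 := Real.sqrt_pos.mpr (by norm_num)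
    rw [lt_div_iff₀ h0]
    have : √2 < 1.41422 := by
      rw [Real.sqrt_lt' (by norm_num)]; norm_num
    nlinarith
  · have h0 : (0 : ℝ) < √2 := Real.sqrt_pos.mpr (by norm_num)
    rw [div_lt_iff₀ h0]
    have : 1.41421 < √2 := by
      rw [Real.lt_sqrt (by norm_num)]; norm_num
    nlinarith

theorem goalR3 : GR3 := by
  intro c a hc1 hc2 ha0 ha1 ha2
  obtain ⟨k, hk2, hk3, hk4, hk⟩ := k_facts
  rw [hk]
  have hak : a ≤ k := by
    by_contra h
    push Not at h
    nlinarith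
  have h1 : 0 ≤ a ^ 2 * (k - a) * (1.1225 - c) := by
    have := sq_nonneg a
    have h2 : 0 ≤ k - a := by linarith
    have h3 : 0 ≤ 1.1225 - c := by linarith
    positivity
  have h2 : 0 ≤ (a + 0.0134) * (a - 0.64726) ^ 2 := by positivity
  have h3 : 0 ≤ a ^ 2 * (0.70711 - k) := by
    have : 0 ≤ 0.70711 - k := by linarith
    positivity
  have ha3 : a ≤ 0.70711 := by linarith
  nlinarith

theorem goalR4 : GR4 := by
  intro c a hc1 hc2 ha0 ha1 ha2
  obtain ⟨k, hk2, hk3, hk4, hk⟩ := k_facts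
  rw [hk] at ha2 ⊢
  have hk0 : 0 < k := by linarith
  obtain ⟨s, hs⟩ : ∃ s, s = a * (2 * k) := ⟨_, rfl⟩
  have has : a = s * k := by
    rw [hs]
    have : a * (2 * k) * k = a * (2 * k ^ 2) := by ring
    rw [this, hk2]; ring
  have hs1 : 1 ≤ s := by
    by_contra h
    push Not at h
    have h0 : 0 ≤ s := by rw [hs]; positivity
    have : a ^ 2 = s ^ 2 * (1 / 2) := by rw [has, mul_pow, hk2]
    nlinarith
  have hs2 : s ≤ c := by
    by_contra h
    push Not at h
    have : c * k < s * k := mul_lt_mul_of_pos_right h hk0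
    rw [← has] at this
    linarith
  have ha2' : a ^ 2 = s ^ 2 * (1 / 2) := by rw [has, mul_pow, hk2]
  have hs2' : s ^ 2 ≤ 1.27 := by nlinarith
  have e1 : 0 < 1 - a ^ 2 := by rw [ha2']; nlinarith
  rw [← Real.sqrt_mul e1.le]
  have hA : 0 < c - 1225 / 2048 * s := by nlinarith
  have hf1 : 0 < (11025 / 16384) ^ 2 * (1 / 2) * (c - 1 / 2) - 1 / 2 * (c - 1225 / 2048) ^ 2 := by
    nlinarith [mul_nonneg (sub_nonneg.2 hc1.le) (sub_nonneg.2 hc2)]
  have hfc : 0 < (11025 / 16384) ^ 2 * (1 - c ^ 2 / 2) * (c - 1 / 2)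
      - 1 / 2 * (c - 1225 / 2048 * c) ^ 2 := by
    have h1 := mul_nonneg (sub_nonneg.2 hc1.le) (sub_nonneg.2 hc2)
    have h2 := mul_nonneg h1 (sub_nonneg.2 hc1.le)
    nlinarith
  have hkey : 0 < (11025 / 16384) ^ 2 * ((1 - s ^ 2 / 2) * (c - 1 / 2))
      - 1 / 2 * (c - 1225 / 2048 * s) ^ 2 := by
    have hc0 : 0 < c - 1 := by linarith
    have hid : ((11025 / 16384) ^ 2 * ((1 - s ^ 2 / 2) * (c - 1 / 2))
        - 1 / 2 * (c - 1225 / 2048 * s) ^ 2) * (c - 1) =
        ((11025 / 16384) ^ 2 * (1 / 2) * (c - 1 / 2) - 1 / 2 * (c - 1225 / 2048) ^ 2) * (c - s)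
        + ((11025 / 16384) ^ 2 * (1 - c ^ 2 / 2) * (c - 1 / 2)
          - 1 / 2 * (c - 1225 / 2048 * c) ^ 2) * (s - 1)
        + ((11025 / 16384) ^ 2 * (c - 1 / 2) / 2 + (1225 / 2048) ^ 2 / 2)
          * ((s - 1) * (c - s) * (c - 1)) := by ring
    have h3 : 0 ≤ ((11025 / 16384) ^ 2 * (c - 1 / 2) / 2 + (1225 / 2048) ^ 2 / 2)
          * ((s - 1) * (c - s) * (c - 1)) := by
      have : 0 ≤ s - 1 := by linarith
      have : 0 ≤ c - s := by linarith
      have : 0 ≤ c - 1 / 2 := by linarith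
      positivity
    have h4 : 0 < ((11025 / 16384) ^ 2 * (1 / 2) * (c - 1 / 2)
          - 1 / 2 * (c - 1225 / 2048) ^ 2) * (c - s)
        + ((11025 / 16384) ^ 2 * (1 - c ^ 2 / 2) * (c - 1 / 2)
          - 1 / 2 * (c - 1225 / 2048 * c) ^ 2) * (s - 1) := by
      rcases eq_or_lt_of_le hs1 with h | h
      · have h5 : 0 < c - s := by linarith
        have h6 : 0 ≤ s - 1 := by linarith
        have := mul_pos hf1 h5
        have := mul_nonneg hfc.le h6
        linarith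
      · have h5 : 0 ≤ c - s := by linarith
        have h6 : 0 < s - 1 := by linarith
        have := mul_nonneg hf1.le h5
        have := mul_pos hfc h6
        linarith
    have h5 : 0 < ((11025 / 16384) ^ 2 * ((1 - s ^ 2 / 2) * (c - 1 / 2))
        - 1 / 2 * (c - 1225 / 2048 * s) ^ 2) * (c - 1) := by
      rw [hid]; linarith
    exact (mul_pos_iff_of_pos_right hc0).1 h5
  have hsq : (c - 1225 / 2048 * s) * k / (11025 / 16384) < √((1 - a ^ 2) * (c - 1 / 2)) := by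
    apply Real.lt_sqrt_of_sq_lt
    rw [ha2', div_pow, mul_pow, hk2, div_lt_iff₀ (by norm_num)]
    linarith
  rw [div_lt_iff₀ (by norm_num)] at hsq
  rw [has]
  rw [has] at hsq
  nlinarith

theorem goalR5 : GR5 := by
  intro c s hc1 hc2 hs1 hs2
  obtain ⟨k, hk2, hk3, hk4, hk⟩ := k_facts
  rw [hk]
  have hs0 : 0 ≤ s := by linarith
  obtain ⟨y, hy⟩ : ∃ y, y = √s := ⟨_, rfl⟩
  have hy0 : 0 ≤ y := by rw [hy]; exact Real.sqrt_nonneg _
  have hys : y ^ 2 = s := by rw [hy]; exact Real.sq_sqrt hs0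
  rw [← hy]
  have hy1 : 1.8257 ≤ y := by
    rw [hy]; apply Real.le_sqrt_of_sq_le; norm_num; linarith
  have hy2 : y ≤ 2 := by
    by_contra h
    push Not at h
    nlinarith
  have h1 : 0 ≤ (k * y - 1) * (1.1225 - c) := by
    apply mul_nonneg
    · nlinarith
    · linarith
  have h2 : 0 ≤ (0.70711 - k) * y := by
    apply mul_nonneg _ hy0
    linarith
  refine ⟨?_, fun h3 => ?_⟩
  · rw [← hys]
    nlinarith
  · have hy3 : 1.8898 ≤ y := by
      rw [hy]; apply Real.le_sqrt_of_sq_le; norm_num at h3 ⊢; linarith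
    rw [← hys]
    nlinarith

end Pool.Agent.Helper96.NO
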